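import Pool.Agent.Helper17.SL.GoalsA

/-! Packet GA1 of project SL. -/

namespace Pool.Agent.Helper17.SL.PkGA1

open Pool.Agent.Helper17.SL

universe u v w

theorem exists_root {Ω : Type u} [Field Ω] [CharZero Ω] [IsAlgClosed Ω] {k : Type v} [Field k]
    (ι : Ω →+* k) (n : ℕ) (hn : 0 < n) (x : k) (hx : x ^ n = 1) :
    ∃ y : Ω, y ^ n = 1 ∧ ι y = x := by
  have _ : NeZero n := ⟨hn.ne'⟩
  have _ : NeZero (n : Ω) := ⟨Nat.cast_ne_zero.2 hn.ne'⟩
  obtain ⟨ζ, hζ⟩ := HasEnoughRootsOfUnity.exists_primitiveRoot Ω n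
  have h1 : IsPrimitiveRoot (ι ζ) n := hζ.map_of_injective ι.injective
  obtain ⟨i, -, hi⟩ := h1.eq_pow_of_pow_eq_one hx
  refine ⟨ζ ^ i, ?_, by rw [map_pow, hi]⟩
  rw [← pow_mul, mul_comm, pow_mul, hζ.pow_eq_one, one_pow]

theorem thm : S_GA1.{u, v, w} := by
  intro Ω _ _ _ k _ ι G _ _ χ
  have hcard : 0 < Nat.card G := Nat.card_pos
  have h1 : ∀ g, ∃ y : Ω, y ^ Nat.card G = 1 ∧ ι y = χ g := by
    intro g
    refine exists_root ι (Nat.card G) hcard _ ?_
    rw [← Units.val_pow_eq_pow_val, ← map_pow, pow_card_eq_one', map_one, Units.val_one]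
  choose y hy hy' using h1
  let E : IntermediateField ℚ Ω := IntermediateField.adjoin ℚ (Set.range y)
  have hfin : FiniteDimensional ℚ E := by
    refine IntermediateField.finiteDimensional_adjoin (K := ℚ) (S := Set.range y) ?_
    rintro z ⟨g, rfl⟩
    exact IsIntegral.of_pow hcard (by rw [hy g]; exact isIntegral_one)
  have hNF : NumberField E := { to_charZero := inferInstance, to_finiteDimensional := hfin }
  have hmem : ∀ g, y g ∈ E := fun g ↦ IntermediateField.subset_adjoin ℚ _ ⟨g, rfl⟩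
  let f : G →* E :=
    { toFun := fun g ↦ ⟨y g, hmem g⟩
      map_one' := by
        apply Subtype.ext
        apply ι.injective
        show ι (y 1) = ι 1
        rw [hy', map_one, map_one, Units.val_one]
      map_mul' := fun a b ↦ by
        apply Subtype.ext
        apply ι.injective
        show ι (y (a * b)) = ι (y a * y b)
        rw [hy', map_mul, map_mul, Units.val_mul, hy', hy'] }
  refine ⟨E, hNF, f.toHomUnits, fun g ↦ ?_⟩
  exact hy' g

end Pool.Agent.Helper17.SL.PkGA1
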