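import Pool.Agent.Helper17.SL.GoalsA

/-! Packet GA7 of project SL. -/

namespace Pool.Agent.Helper17.SL.PkGA7

open Pool.Agent.Helper17.SL

universe u v w

theorem thm : S_GA7.{u, v, w} := by
  intro K _ H _ _ _ _ A _ σ θ hσθ
  let _ : Algebra K A := (σ.comp (algebraMap K H)).toAlgebra
  let _ : Algebra H A := σ.toAlgebra
  have _ : IsScalarTower K H A := IsScalarTower.of_algebraMap_eq fun x ↦ rfl
  let θ' : H →ₐ[K] A := { θ with commutes' := fun r ↦ (RingHom.congr_fun hσθ r).symm }
  refine ⟨θ'.restrictNormal' H, ?_⟩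
  ext x
  have h1 := θ'.restrictNormal_commutes H x
  exact h1.symm

end Pool.Agent.Helper17.SL.PkGA7
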